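import Pool.Agent.Lib.MP_e46711_an.DefsB

/-!
# MP_e46711_an: the final statement and the statements of part A (from the strip to the domain)
-/

open Set Filter Topology MeasureTheory
open scoped ContDiff

namespace Pool.Agent.Lib.MP_e46711_an

/-! ## The final statement -/

/-- `Ω` has smooth boundary: near every boundary point `Ω` is the sublevel set of a smooth
function with nonzero differential. -/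
def SmoothBoundary {d : ℕ} (Ω : Set (EuclideanSpace ℝ (Fin d))) : Prop :=
  ∀ x ∈ frontier Ω, ∃ (N : Set (EuclideanSpace ℝ (Fin d))) (g : EuclideanSpace ℝ (Fin d) → ℝ),
    IsOpen N ∧ x ∈ N ∧ ContDiffOn ℝ ∞ g N ∧ fderiv ℝ g x ≠ 0 ∧ Ω ∩ N = {z ∈ N | g z < 0}

/-- bounded domains with smooth boundary and volume one -/
structure Domain1 {d : ℕ} (Ω : Set (EuclideanSpace ℝ (Fin d))) : Prop where
  isOpen : IsOpen Ω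
  bounded : Bornology.IsBounded Ω
  conn : IsConnected Ω
  smooth : SmoothBoundary Ω
  vol : volume Ω = 1

/-- `u ∈ H^1(Ω)` with gradient `G`: closure of the restrictions of `C^1` functions on `ℝ^d`
in the norm of `H^1(Ω)`. -/
structure InH1 {d : ℕ} (Ω : Set (EuclideanSpace ℝ (Fin d))) (u : EuclideanSpace ℝ (Fin d) → ℝ)
    (G : EuclideanSpace ℝ (Fin d) → EuclideanSpace ℝ (Fin d)) : Prop where
  mu : MemLp u 2 (volume.restrict Ω)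
  mG : MemLp G 2 (volume.restrict Ω)
  approx : ∃ φ : ℕ → EuclideanSpace ℝ (Fin d) → ℝ, (∀ n, ContDiff ℝ 1 (φ n)) ∧
    Tendsto (fun n => ∫ x in Ω, ((φ n x - u x) ^ 2 + ‖gradient (φ n) x - G x‖ ^ 2)) atTop (𝓝 0)

/-- weak positive solutions of `-ε(p) Δu + lam u - u^p = 0` in `Ω`, `∂_n u = 0` -/
def PosSol {d : ℕ} (Ω : Set (EuclideanSpace ℝ (Fin d))) (p lam : ℝ)
    (u : EuclideanSpace ℝ (Fin d) → ℝ) : Prop :=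
  (∀ᵐ x ∂(volume.restrict Ω), 0 < u x) ∧ ∃ G, InH1 Ω u G ∧
    ∀ φ : EuclideanSpace ℝ (Fin d) → ℝ, ContDiff ℝ 1 φ →
      (p - 1) / |p - 1| * (∫ x in Ω, inner ℝ (G x) (gradient φ x)) + lam * (∫ x in Ω, u x * φ x)
        - ∫ x in Ω, u x ^ p * φ x = 0

/-- constant on `Ω` (almost everywhere) -/
def AEConst {d : ℕ} (Ω : Set (EuclideanSpace ℝ (Fin d))) (u : EuclideanSpace ℝ (Fin d) → ℝ) :
    Prop := ∃ k : ℝ, ∀ᵐ x ∂(volume.restrict Ω), u x = k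

/-- the set whose infimum is `μ₁` -/
def Sol1 {d : ℕ} (Ω : Set (EuclideanSpace ℝ (Fin d))) (p : ℝ) : Set ℝ :=
  {lam | 0 < lam ∧ ∃ u, PosSol Ω p lam u ∧ ¬ AEConst Ω u}

/-- the set whose supremum is `Λ⋆` -/
def LamSet {d : ℕ} (Ω : Set (EuclideanSpace ℝ (Fin d))) (p : ℝ) : Set ℝ :=
  {Λ | ∀ u G, InH1 Ω u G →
    Λ / (p - 1) * ((∫ x in Ω, |u x| ^ (p + 1)) ^ (2 / (p + 1)) - ∫ x in Ω, u x ^ 2)
      ≤ ∫ x in Ω, ‖G x‖ ^ 2}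

/-- The negative answer to Q1 for the exponent `p`. -/
def MainStatement (p : ℝ) : Prop :=
  ∃ Ω : Set (EuclideanSpace ℝ (Fin 2)), Domain1 Ω ∧ ∃ μ₁ μ₂ lam : ℝ,
    IsGLB (Sol1 Ω p) μ₁ ∧ IsLUB (LamSet Ω p) (|p - 1| * μ₂) ∧ μ₁ < lam ∧ lam < μ₂ ∧
    ∀ u, PosSol Ω p lam u → AEConst Ω u

/-! ## Part A -/

/-- Main result of part A -/
def AStatement : Prop := ∀ p ∈ Ioo (0:ℝ) 1, ∀ ℓ > (0:ℝ), ∀ h : ℝ → ℝ, ContDiff ℝ ∞ h →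
  (∀ s, h (s + ℓ) = h s) → (∀ s, 0 < h s) → ∀ δ > 0, ∀ l0 l1 l2, 0 < l0 → l0 < l1 → l1 < l2 →
  Facts2D p l0 l1 l2 ℓ h δ → MainStatement p

/-- the map from the strip onto the ring -/
noncomputable def Fmap (ℓ : ℝ) (h : ℝ → ℝ) (δ ρ : ℝ) (z : ℝ × ℝ) : EuclideanSpace ℝ (Fin 2) :=
  !₂[ρ * Real.exp (2 * Real.pi * δ * h z.1 * z.2 / ℓ) * Real.cos (2 * Real.pi * z.1 / ℓ),
     ρ * Real.exp (2 * Real.pi * δ * h z.1 * z.2 / ℓ) * Real.sin (2 * Real.pi * z.1 / ℓ)]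

/-- the thin ring -/
noncomputable def Om (ℓ : ℝ) (h : ℝ → ℝ) (δ ρ : ℝ) : Set (EuclideanSpace ℝ (Fin 2)) :=
  Fmap ℓ h δ ρ '' (univ ×ˢ Ioo (-1) 1)

def A1Statement : Prop := ∀ ℓ > (0:ℝ), ∀ h : ℝ → ℝ, ContDiff ℝ ∞ h →
  (∀ s, h (s + ℓ) = h s) → (∀ s, 0 < h s) → ∀ δ > 0, ∀ ρ > 0,
  IsOpen (Om ℓ h δ ρ) ∧ Bornology.IsBounded (Om ℓ h δ ρ) ∧ IsConnected (Om ℓ h δ ρ) ∧
    SmoothBoundary (Om ℓ h δ ρ)

def A2Statement : Prop := ∀ ℓ > (0:ℝ), ∀ h : ℝ → ℝ, ContDiff ℝ ∞ h →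
  (∀ s, h (s + ℓ) = h s) → (∀ s, 0 < h s) → ∀ δ > 0, ∀ ρ > 0, ∀ Φ, C1per ℓ Φ →
  ∃ φ : EuclideanSpace ℝ (Fin 2) → ℝ, ContDiff ℝ 1 φ ∧
    ∀ s, ∀ y ∈ Ioo (-1:ℝ) 1, φ (Fmap ℓ h δ ρ (s, y)) = Φ (s, y)

/-- pull back of a vector field -/
noncomputable def pbS (ℓ : ℝ) (h : ℝ → ℝ) (δ ρ : ℝ)
    (G : EuclideanSpace ℝ (Fin 2) → EuclideanSpace ℝ (Fin 2)) (z : ℝ × ℝ) : ℝ :=
  inner ℝ (G (Fmap ℓ h δ ρ z)) (fderiv ℝ (Fmap ℓ h δ ρ) z (1, 0))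
noncomputable def pbY (ℓ : ℝ) (h : ℝ → ℝ) (δ ρ : ℝ)
    (G : EuclideanSpace ℝ (Fin 2) → EuclideanSpace ℝ (Fin 2)) (z : ℝ × ℝ) : ℝ :=
  inner ℝ (G (Fmap ℓ h δ ρ z)) (fderiv ℝ (Fmap ℓ h δ ρ) z (0, 1))

def A3Statement : Prop := ∀ ℓ > (0:ℝ), ∀ h : ℝ → ℝ, ContDiff ℝ ∞ h →
  (∀ s, h (s + ℓ) = h s) → (∀ s, 0 < h s) → ∀ δ > 0, ∀ ρ > 0,
  (∀ f : EuclideanSpace ℝ (Fin 2) → ℝ, ∫ x in Om ℓ h δ ρ, f x
      = 2 * δ * (2 * Real.pi * ρ / ℓ) ^ 2 * Inu ℓ h δ (fun z => f (Fmap ℓ h δ ρ z))) ∧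
  (∀ f : EuclideanSpace ℝ (Fin 2) → ℝ, MemLp f 2 (volume.restrict (Om ℓ h δ ρ)) ↔
      MemLp (fun z => f (Fmap ℓ h δ ρ z)) 2 (muT ℓ)) ∧
  (∀ G G' : EuclideanSpace ℝ (Fin 2) → EuclideanSpace ℝ (Fin 2),
      ∫ x in Om ℓ h δ ρ, inner ℝ (G x) (G' x) = 2 * δ * Bil ℓ h δ (pbS ℓ h δ ρ G)
        (pbY ℓ h δ ρ G) (pbS ℓ h δ ρ G') (pbY ℓ h δ ρ G'))

end Pool.Agent.Lib.MP_e46711_an
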