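import Pool.Agent.Lib.MP_e46711_an.DefsA

open Set Filter Topology MeasureTheory
open scoped ContDiff

namespace Pool.Agent.Lib.MP_e46711_an

/-- `MainStatement` together with a solution below `lam` which is bounded below by a positive
constant (so that it is a classical positive solution by elliptic regularity). -/
def MainStrong (p : ℝ) : Prop :=
  ∃ Ω : Set (EuclideanSpace ℝ (Fin 2)), Domain1 Ω ∧ ∃ μ₁ μ₂ lam : ℝ,
    IsGLB (Sol1 Ω p) μ₁ ∧ IsLUB (LamSet Ω p) (|p - 1| * μ₂) ∧ μ₁ < lam ∧ lam < μ₂ ∧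
    (∃ l u, 0 < l ∧ l < lam ∧ PosSol Ω p l u ∧ ¬ AEConst Ω u ∧
      ∃ c > 0, ∀ᵐ x ∂(volume.restrict Ω), c ≤ u x) ∧
    ∀ u, PosSol Ω p lam u → AEConst Ω u

def AStrong : Prop := ∀ p ∈ Ioo (0:ℝ) 1, ∀ ℓ > (0:ℝ), ∀ h : ℝ → ℝ, ContDiff ℝ ∞ h →
  (∀ s, h (s + ℓ) = h s) → (∀ s, 0 < h s) → ∀ δ > 0, ∀ l0 l1 l2, 0 < l0 → l0 < l1 → l1 < l2 →
  Facts2D p l0 l1 l2 ℓ h δ → MainStrong p

end Pool.Agent.Lib.MP_e46711_an
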