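import Pool.Agent.Lib.MP_e46711_an.DefsC

/-!
# MP_e46711_an: interface between the ring (part C) and the thin domain (part B), and the
statements of part B.  See `Paper.md`.
-/

open Set Filter Topology MeasureTheory
open scoped ContDiff

namespace Pool.Agent.Lib.MP_e46711_an

/-- `C^1` and `ℓ`-periodic on `ℝ` -/
def C1p (ℓ : ℝ) (u : ℝ → ℝ) : Prop := ContDiff ℝ 1 u ∧ ∀ s, u (s + ℓ) = u s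

/-- Everything part B needs to know about the one-dimensional ring (part C constructs it). -/
structure Ring1D (p l0 l1 l3 : ℝ) where
  (ℓ : ℝ)
  (h wa wb : ℝ → ℝ)
  (Q : ℝ → ℝ → ℝ)
  (t1 t2 NH NL σ θ Z1 l4 : ℝ)
  hp0 : 0 < p
  hp1 : p < 1
  hl0 : 0 < l0
  hl01 : l0 < l1
  hl13 : l1 < l3
  hℓ : 0 < ℓ
  smooth : ContDiff ℝ ∞ h
  per : ∀ s, h (s + ℓ) = h s
  pos : ∀ s, 0 < h s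
  /- averaging weights (for `H` and `L`) -/
  wam : Measurable wa
  wbm : Measurable wb
  wa0 : ∀ s, 0 ≤ wa s
  wb0 : ∀ s, 0 ≤ wb s
  wab : ∃ K, ∀ s, wa s ≤ K ∧ wb s ≤ K
  wa1 : ∫ s in (0:ℝ)..ℓ, wa s = 1
  wb1 : ∫ s in (0:ℝ)..ℓ, wb s = 1
  hNH : 0 < NH
  hNL : 0 < NL
  /- Jensen for the two lumps -/
  J : ∀ u, C1p ℓ u → NH * |∫ s in (0:ℝ)..ℓ, wa s * u s| ^ (p + 1)
      + NL * |∫ s in (0:ℝ)..ℓ, wb s * u s| ^ (p + 1) ≤ Zm p h u 0 ℓ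
  /- coercivity modulo the two averages -/
  coer : ∃ c > 0, ∃ C, ∀ u, C1p ℓ u →
      c * ((∫ s in (0:ℝ)..ℓ, (deriv u s) ^ 2) + ∫ s in (0:ℝ)..ℓ, (u s) ^ 2)
        ≤ En h u 0 ℓ - l3 * Sm h u 0 ℓ
          + C * ((∫ s in (0:ℝ)..ℓ, wa s * u s) ^ 2 + (∫ s in (0:ℝ)..ℓ, wb s * u s) ^ 2)
  /- interpolation inequality, stable under small changes of the mass weight -/
  T3 : ∃ κ > 0, ∀ k : ℝ → ℝ, Continuous k →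
      (∀ s ∈ Icc 0 ℓ, k s ∈ Icc ((1 - κ) * h s) ((1 + κ) * h s)) → ∀ u, C1p ℓ u →
      l3 * (Sm k u 0 ℓ - (∫ s in (0:ℝ)..ℓ, k s) ^ ((p - 1) / (p + 1))
          * Zm p k u 0 ℓ ^ (2 / (p + 1))) ≤ En h u 0 ℓ
  /- spectral gap -/
  hl4 : (1 - p) * l1 < l4
  T4 : ∀ u, C1p ℓ u → l4 * Sm h (fun s => u s - u 0) 0 ℓ ≤ En h u 0 ℓ
  /- window -/
  ht1 : 1 < t1
  ht2 : t1 < t2
  hσ : 0 < σ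
  hθ : 0 < θ
  Qc : Continuous fun z : ℝ × ℝ => Q z.1 z.2
  W1 : ∀ u, C1p ℓ u → l0 * Sm h u 0 ℓ - En h u 0 ℓ
      ≤ Q (∫ s in (0:ℝ)..ℓ, wa s * u s) (∫ s in (0:ℝ)..ℓ, wb s * u s)
  W2 : ∃ u, C1p ℓ u ∧ Zm p h u 0 ℓ < 1 ∧ 0 < (∫ s in (0:ℝ)..ℓ, wa s * u s) ∧
      t1 * (∫ s in (0:ℝ)..ℓ, wa s * u s) < (∫ s in (0:ℝ)..ℓ, wb s * u s) ∧
      (∫ s in (0:ℝ)..ℓ, wb s * u s) < t2 * (∫ s in (0:ℝ)..ℓ, wa s * u s) ∧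
      σ < l0 * Sm h u 0 ℓ - En h u 0 ℓ
  W3 : ∀ a b, 0 ≤ a → t1 * a ≤ b → b ≤ t2 * a →
      NH * |a| ^ (p + 1) + NL * |b| ^ (p + 1) ≤ 1 + θ → σ - θ ≤ Q a b →
      θ ≤ a ∧ t1 * a + θ ≤ b ∧ b ≤ t2 * a - θ
  hZ1 : (2 * l0 / σ) ^ ((p + 1) / (1 - p)) ≤ Z1
  /- positivity of the window solutions at `l0` -/
  P0 : ∀ u F, Sol p l0 ℓ h u F → 0 ≤ (∫ s in (0:ℝ)..ℓ, wa s * u s) →
      t1 * (∫ s in (0:ℝ)..ℓ, wa s * u s) ≤ (∫ s in (0:ℝ)..ℓ, wb s * u s) →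
      (∫ s in (0:ℝ)..ℓ, wb s * u s) ≤ t2 * (∫ s in (0:ℝ)..ℓ, wa s * u s) →
      (∃ s, u s ≠ 0) → Zm p h u 0 ℓ ≤ Z1 → ∀ s, 0 < u s
  /- classification of the nonnegative solutions at `l1` -/
  T2 : ∀ u F, Sol p l1 ℓ h u F → (∀ s, 0 ≤ u s) →
      (∀ s, u s = 0) ∨ (∀ s, u s = 1) ∨
      ∃ α β, 0 < α ∧ α < β ∧ β < ℓ ∧ (∀ s ∈ Icc α β, u s = 0) ∧ ∀ s ∈ Icc α β, h s = h α

/-- Main result of part C. -/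
def CStatement : Prop := ∃ l0 l1 l3 : ℝ, Nonempty (Ring1D (1 / 8) l0 l1 l3)

/-! ## part B: functions on `(0,ℓ) × (-1,1)` -/

/-- Lebesgue measure on `(0,ℓ] × (-1,1)` -/
noncomputable def muT (ℓ : ℝ) : Measure (ℝ × ℝ) :=
  (volume.restrict (Ioc 0 ℓ)).prod (volume.restrict (Ioo (-1) 1))

/-- `C^1` functions on `ℝ × ℝ`, `ℓ`-periodic in the first variable -/
def C1per (ℓ : ℝ) (φ : ℝ × ℝ → ℝ) : Prop :=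
  ContDiff ℝ 1 φ ∧ ∀ s y, φ (s + ℓ, y) = φ (s, y)

noncomputable def dS (φ : ℝ × ℝ → ℝ) (z : ℝ × ℝ) : ℝ := fderiv ℝ φ z (1, 0)
noncomputable def dY (φ : ℝ × ℝ → ℝ) (z : ℝ × ℝ) : ℝ := fderiv ℝ φ z (0, 1)

/-- `(U, V, W)`: `U ∈ H^1` with `∂_s U = V`, `∂_y U = W` (closure of `C1per` functions) -/
structure H1T (ℓ : ℝ) (U V W : ℝ × ℝ → ℝ) : Prop where
  mU : MemLp U 2 (muT ℓ)
  mV : MemLp V 2 (muT ℓ)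
  mW : MemLp W 2 (muT ℓ)
  approx : ∃ φ : ℕ → ℝ × ℝ → ℝ, (∀ n, C1per ℓ (φ n)) ∧
    Tendsto (fun n => ∫ z, ((φ n z - U z) ^ 2 + (dS (φ n) z - V z) ^ 2
      + (dY (φ n) z - W z) ^ 2) ∂muT ℓ) atTop (𝓝 0)

/-- conformal weight -/
noncomputable def om (ℓ : ℝ) (h : ℝ → ℝ) (δ : ℝ) (z : ℝ × ℝ) : ℝ :=
  Real.exp (4 * Real.pi * δ * h z.1 * z.2 / ℓ)

/-- integration against `dν = (1/2) h ω ds dy` -/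
noncomputable def Inu (ℓ : ℝ) (h : ℝ → ℝ) (δ : ℝ) (f : ℝ × ℝ → ℝ) : ℝ :=
  ∫ z, f z * (h z.1 * om ℓ h δ z / 2) ∂muT ℓ

/-- first component of the physical gradient -/
noncomputable def G1 (h : ℝ → ℝ) (V W : ℝ × ℝ → ℝ) (z : ℝ × ℝ) : ℝ :=
  V z - deriv h z.1 / h z.1 * z.2 * W z
/-- second component of the physical gradient -/
noncomputable def G2 (h : ℝ → ℝ) (δ : ℝ) (W : ℝ × ℝ → ℝ) (z : ℝ × ℝ) : ℝ :=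
  W z / (δ * h z.1)

/-- the Dirichlet form of the thin ring of width `δ h` (divided by `2δ`) -/
noncomputable def Bil (ℓ : ℝ) (h : ℝ → ℝ) (δ : ℝ) (V W V' W' : ℝ × ℝ → ℝ) : ℝ :=
  ∫ z, (G1 h V W z * G1 h V' W' z + G2 h δ W z * G2 h δ W' z) * (h z.1 / 2) ∂muT ℓ

/-- weak solutions on the thin ring -/
structure WSol (p lam ℓ : ℝ) (h : ℝ → ℝ) (δ : ℝ) (U V W : ℝ × ℝ → ℝ) : Prop where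
  h1 : H1T ℓ U V W
  eq : ∀ φ, C1per ℓ φ →
    Bil ℓ h δ V W (dS φ) (dY φ) = lam * Inu ℓ h δ (fun z => gg p (U z) * φ z)

/-- Main facts about the thin ring. -/
structure Facts2D (p l0 l1 l2 ℓ : ℝ) (h : ℝ → ℝ) (δ : ℝ) : Prop where
  ex : ∃ U V W, WSol p l0 ℓ h δ U V W ∧ (∃ c > 0, ∀ᵐ z ∂muT ℓ, c ≤ U z) ∧
    ¬ ∃ k, ∀ᵐ z ∂muT ℓ, U z = k
  uniq : ∀ U V W, WSol p l1 ℓ h δ U V W → (∀ᵐ z ∂muT ℓ, 0 < U z) → ∃ k, ∀ᵐ z ∂muT ℓ, U z = k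
  ineq : ∀ U V W, H1T ℓ U V W →
    l2 * (Inu ℓ h δ (fun z => U z ^ 2) - (Inu ℓ h δ fun _ => 1) ^ ((p - 1) / (p + 1))
      * (Inu ℓ h δ fun z => |U z| ^ (p + 1)) ^ (2 / (p + 1))) ≤ Bil ℓ h δ V W V W

/-- Main result of part B. -/
def BStatement : Prop := ∀ (p l0 l1 l3 : ℝ) (R : Ring1D p l0 l1 l3) (l2 : ℝ), l1 < l2 → l2 < l3 →
  ∀ᶠ δ in 𝓝[>] (0:ℝ), Facts2D p l0 l1 l2 R.ℓ R.h δ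

/-! ### B0: calculus of `H1T` -/

def H1TBasic : Prop := ∀ ℓ > (0:ℝ),
  (∀ φ, C1per ℓ φ → H1T ℓ φ (dS φ) (dY φ)) ∧
  (∀ U V W U' V' W', H1T ℓ U V W → H1T ℓ U' V' W' →
    H1T ℓ (fun z => U z + U' z) (fun z => V z + V' z) (fun z => W z + W' z)) ∧
  (∀ c U V W, H1T ℓ U V W → H1T ℓ (fun z => c * U z) (fun z => c * V z) (fun z => c * W z)) ∧
  (∀ U V W U' V' W', H1T ℓ U V W → U =ᵐ[muT ℓ] U' → V =ᵐ[muT ℓ] V' → W =ᵐ[muT ℓ] W' →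
    H1T ℓ U' V' W') ∧
  -- closedness
  (∀ (U V W : ℝ × ℝ → ℝ) (Un Vn Wn : ℕ → ℝ × ℝ → ℝ), MemLp U 2 (muT ℓ) → MemLp V 2 (muT ℓ) →
    MemLp W 2 (muT ℓ) → (∀ n, H1T ℓ (Un n) (Vn n) (Wn n)) →
    Tendsto (fun n => ∫ z, ((Un n z - U z) ^ 2 + (Vn n z - V z) ^ 2 + (Wn n z - W z) ^ 2) ∂muT ℓ)
      atTop (𝓝 0) → H1T ℓ U V W) ∧
  -- completeness
  (∀ (Un Vn Wn : ℕ → ℝ × ℝ → ℝ), (∀ n, H1T ℓ (Un n) (Vn n) (Wn n)) →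
    (∀ ε > 0, ∃ N, ∀ n ≥ N, ∀ m ≥ N, ∫ z, ((Un n z - Un m z) ^ 2 + (Vn n z - Vn m z) ^ 2
      + (Wn n z - Wn m z) ^ 2) ∂muT ℓ < ε) →
    ∃ U V W, H1T ℓ U V W ∧
    Tendsto (fun n => ∫ z, ((Un n z - U z) ^ 2 + (Vn n z - V z) ^ 2 + (Wn n z - W z) ^ 2) ∂muT ℓ)
      atTop (𝓝 0))

/-- positive part, and multiplication by `C^1` functions -/
def H1TTrunc : Prop := ∀ ℓ > (0:ℝ), ∀ U V W, H1T ℓ U V W →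
  H1T ℓ (fun z => max (U z) 0) (fun z => if 0 < U z then V z else 0)
    (fun z => if 0 < U z then W z else 0) ∧
  ∀ ζ, C1per ℓ ζ → H1T ℓ (fun z => ζ z * U z) (fun z => ζ z * V z + dS ζ z * U z)
    (fun z => ζ z * W z + dY ζ z * U z)

/-- average over the slices -/
noncomputable def avY (U : ℝ × ℝ → ℝ) (z : ℝ × ℝ) : ℝ := (∫ y in (-1:ℝ)..1, U (z.1, y)) / 2

def H1TAverage : Prop := ∀ ℓ > (0:ℝ), ∀ U V W, H1T ℓ U V W →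
  H1T ℓ (avY U) (avY V) (fun _ => 0) ∧
  ∫ z, (U z - avY U z) ^ 2 ∂muT ℓ ≤ 4 * ∫ z, W z ^ 2 ∂muT ℓ

def GNStatement : Prop := ∀ ℓ > (0:ℝ), ∃ C, ∀ U V W, H1T ℓ U V W →
  ∫ z, U z ^ 2 ∂muT ℓ ≤ C * ((∫ z, |U z| ∂muT ℓ) + ∫ z, |W z| ∂muT ℓ)
    * ((∫ z, |U z| ∂muT ℓ) + ∫ z, |V z| ∂muT ℓ)

/-- the equation holds for all test functions in `H1T` -/
def WeakExtend : Prop := ∀ p ∈ Ioo (0:ℝ) 1, ∀ ℓ > (0:ℝ), ∀ h : ℝ → ℝ, ContDiff ℝ ∞ h →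
  (∀ s, h (s + ℓ) = h s) → (∀ s, 0 < h s) → ∀ δ > 0, ∀ lam U V W, WSol p lam ℓ h δ U V W →
  ∀ U' V' W', H1T ℓ U' V' W' →
    Bil ℓ h δ V W V' W' = lam * Inu ℓ h δ (fun z => gg p (U z) * U' z)

/-! ### B1: the quadratic forms -/

def FormCompare : Prop := ∀ ℓ > (0:ℝ), ∀ h : ℝ → ℝ, ContDiff ℝ ∞ h →
  (∀ s, h (s + ℓ) = h s) → (∀ s, 0 < h s) → ∃ C > 0, ∀ δ ∈ Ioc (0:ℝ) 1, ∀ V W,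
    MemLp V 2 (muT ℓ) → MemLp W 2 (muT ℓ) →
    (∫ z, V z ^ 2 ∂muT ℓ) + (∫ z, W z ^ 2 ∂muT ℓ) / δ ^ 2 ≤ C * Bil ℓ h δ V W V W ∧
    Bil ℓ h δ V W V W ≤ C * ((∫ z, V z ^ 2 ∂muT ℓ) + (∫ z, W z ^ 2 ∂muT ℓ) / δ ^ 2)

namespace Ring1D
variable {p l0 l1 l3 : ℝ} (R : Ring1D p l0 l1 l3)
/-- the two averages in dimension two -/
noncomputable def a2 (U : ℝ × ℝ → ℝ) : ℝ := (∫ z, R.wa z.1 * U z ∂muT R.ℓ) / 2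
noncomputable def b2 (U : ℝ × ℝ → ℝ) : ℝ := (∫ z, R.wb z.1 * U z ∂muT R.ℓ) / 2
end Ring1D

def Coer2D : Prop := ∀ (p l0 l1 l3 : ℝ) (R : Ring1D p l0 l1 l3) (l2 : ℝ), 0 < l2 → l2 < l3 →
  ∃ c > 0, ∃ C > 0, ∀ᶠ δ in 𝓝[>] (0:ℝ), ∀ U V W, H1T R.ℓ U V W →
    c * ((∫ z, U z ^ 2 ∂muT R.ℓ) + Bil R.ℓ R.h δ V W V W)
      ≤ Bil R.ℓ R.h δ V W V W - l2 * Inu R.ℓ R.h δ (fun z => U z ^ 2)
        + C * (R.a2 U ^ 2 + R.b2 U ^ 2)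

def T32D : Prop := ∀ (p l0 l1 l3 : ℝ) (R : Ring1D p l0 l1 l3) (l2 : ℝ), 0 < l2 → l2 < l3 →
  ∀ᶠ δ in 𝓝[>] (0:ℝ), ∀ U V W, H1T R.ℓ U V W →
    l2 * (Inu R.ℓ R.h δ (fun z => U z ^ 2)
      - (Inu R.ℓ R.h δ fun _ => 1) ^ ((p - 1) / (p + 1))
      * (Inu R.ℓ R.h δ fun z => |U z| ^ (p + 1)) ^ (2 / (p + 1))) ≤ Bil R.ℓ R.h δ V W V W

def T42D : Prop := ∀ (p l0 l1 l3 : ℝ) (R : Ring1D p l0 l1 l3) (l : ℝ), l < R.l4 →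
  ∀ᶠ δ in 𝓝[>] (0:ℝ), ∀ U V W, H1T R.ℓ U V W → ∃ m : ℝ,
    m * Inu R.ℓ R.h δ (fun _ => 1) = Inu R.ℓ R.h δ U ∧
    l * Inu R.ℓ R.h δ (fun z => (U z - m) ^ 2) ≤ Bil R.ℓ R.h δ V W V W

/-- `W1` and `J` in dimension two -/
def W12D : Prop := ∀ (p l0 l1 l3 : ℝ) (R : Ring1D p l0 l1 l3), ∀ K > 0, ∀ η > 0,
  ∀ᶠ δ in 𝓝[>] (0:ℝ), ∀ U V W, H1T R.ℓ U V W →
    R.NH * |R.a2 U| ^ (p + 1) + R.NL * |R.b2 U| ^ (p + 1)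
      ≤ (1 + η) * Inu R.ℓ R.h δ (fun z => |U z| ^ (p + 1)) ∧
    (∫ z, U z ^ 2 ∂muT R.ℓ ≤ K → Bil R.ℓ R.h δ V W V W ≤ K →
      l0 * Inu R.ℓ R.h δ (fun z => U z ^ 2) - Bil R.ℓ R.h δ V W V W
        ≤ R.Q (R.a2 U) (R.b2 U) + η)

/-! ### B2: uniform closeness -/

def SupClose : Prop := ∀ p ∈ Ioo (0:ℝ) 1, ∀ ℓ > (0:ℝ), ∀ h : ℝ → ℝ, ContDiff ℝ ∞ h →
  (∀ s, h (s + ℓ) = h s) → (∀ s, 0 < h s) → ∀ lam > 0, ∀ v F, Sol p lam ℓ h v F →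
  ∀ η > 0, ∃ κ > 0, ∀ᶠ δ in 𝓝[>] (0:ℝ), ∀ U V W, WSol p lam ℓ h δ U V W →
    ∫ z, (U z - v z.1) ^ 2 ∂muT ℓ ≤ κ → ∀ᵐ z ∂muT ℓ, |U z - v z.1| ≤ η

/-! ### B3: maximisers in the window -/

namespace Ring1D
variable {p l0 l1 l3 : ℝ} (R : Ring1D p l0 l1 l3)
/-- admissible functions -/
def Adm (δ : ℝ) (U V W : ℝ × ℝ → ℝ) : Prop :=
  H1T R.ℓ U V W ∧ Inu R.ℓ R.h δ (fun z => |U z| ^ (p + 1)) ≤ 1 ∧ 0 ≤ R.a2 U ∧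
    R.t1 * R.a2 U ≤ R.b2 U ∧ R.b2 U ≤ R.t2 * R.a2 U
/-- the functional -/
noncomputable def BF (δ : ℝ) (U V W : ℝ × ℝ → ℝ) : ℝ :=
  l0 * Inu R.ℓ R.h δ (fun z => U z ^ 2) - Bil R.ℓ R.h δ V W V W
end Ring1D

def MaxExists : Prop := ∀ (p l0 l1 l3 : ℝ) (R : Ring1D p l0 l1 l3), ∀ᶠ δ in 𝓝[>] (0:ℝ),
  ∃ U V W, R.Adm δ U V W ∧ ∀ U' V' W', R.Adm δ U' V' W' → R.BF δ U' V' W' ≤ R.BF δ U V W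

def EulerLagrange : Prop := ∀ (p l0 l1 l3 : ℝ) (R : Ring1D p l0 l1 l3), ∀ δ ∈ Ioc (0:ℝ) 1,
  ∀ U V W, R.Adm δ U V W → (∀ U' V' W', R.Adm δ U' V' W' → R.BF δ U' V' W' ≤ R.BF δ U V W) →
    0 < R.BF δ U V W → 0 < R.a2 U → R.t1 * R.a2 U < R.b2 U → R.b2 U < R.t2 * R.a2 U →
    Inu R.ℓ R.h δ (fun z => |U z| ^ (p + 1)) = 1 ∧
    WSol p l0 R.ℓ R.h δ (fun z => (l0 / R.BF δ U V W) ^ (1 / (1 - p)) * U z)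
      (fun z => (l0 / R.BF δ U V W) ^ (1 / (1 - p)) * V z)
      (fun z => (l0 / R.BF δ U V W) ^ (1 / (1 - p)) * W z)

/-! ### B4: limits of solutions -/

def LimitStatement : Prop := ∀ (p l0 l1 l3 : ℝ) (R : Ring1D p l0 l1 l3), ∀ lam ∈ Ioo 0 l3,
  ∀ δ : ℕ → ℝ, (∀ n, 0 < δ n) → Tendsto δ atTop (𝓝 0) →
  ∀ U V W : ℕ → ℝ × ℝ → ℝ, (∀ n, WSol p lam R.ℓ R.h (δ n) (U n) (V n) (W n)) →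
    (∃ K, ∀ n, ∫ z, U n z ^ 2 ∂muT R.ℓ ≤ K) →
    ∃ ns : ℕ → ℕ, StrictMono ns ∧ ∃ v F, Sol p lam R.ℓ R.h v F ∧
      Tendsto (fun k => ∫ z, (U (ns k) z - v z.1) ^ 2 ∂muT R.ℓ) atTop (𝓝 0)

/-! ### B5, B6, B7 -/

def ExStatement : Prop := ∀ (p l0 l1 l3 : ℝ) (R : Ring1D p l0 l1 l3), ∀ᶠ δ in 𝓝[>] (0:ℝ),
  ∃ U V W, WSol p l0 R.ℓ R.h δ U V W ∧ (∃ c > 0, ∀ᵐ z ∂muT R.ℓ, c ≤ U z) ∧
    ¬ ∃ k, ∀ᵐ z ∂muT R.ℓ, U z = k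

/-- B7: a solution which is small on a part of the ring where `h` is constant has a dead core -/
def LocalDead : Prop := ∀ p ∈ Ioo (0:ℝ) 1, ∀ ℓ > (0:ℝ), ∀ h : ℝ → ℝ, ContDiff ℝ ∞ h →
  (∀ s, h (s + ℓ) = h s) → (∀ s, 0 < h s) → ∀ lam > 0, ∀ α β, 0 < α → α < β → β < ℓ →
  (∀ s ∈ Icc α β, h s = h α) → ∃ η > 0, ∀ᶠ δ in 𝓝[>] (0:ℝ), ∀ U V W, WSol p lam ℓ h δ U V W →
    (∀ᵐ z ∂muT ℓ, 0 ≤ U z) → (∀ᵐ z ∂muT ℓ, z.1 ∈ Icc α β → U z ≤ η) →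
    ¬ ∀ᵐ z ∂muT ℓ, 0 < U z

def UniqStatement : Prop := ∀ (p l0 l1 l3 : ℝ) (R : Ring1D p l0 l1 l3), ∀ᶠ δ in 𝓝[>] (0:ℝ),
  ∀ U V W, WSol p l1 R.ℓ R.h δ U V W → (∀ᵐ z ∂muT R.ℓ, 0 < U z) →
    ∃ k, ∀ᵐ z ∂muT R.ℓ, U z = k

end Pool.Agent.Lib.MP_e46711_an
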