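import Mathlib

/-!
# MP_e46711_an, part C: the one-dimensional ring (definitions and module statements)

See `Paper.md`.  Everything here is one-dimensional: a weight `h` on `[0, ℓ]` (periodic).
-/

open Set Filter Topology MeasureTheory
open scoped ContDiff

namespace Pool.Agent.Lib.MP_e46711_an

/-- signed power `sgn(x) |x|^p` -/
noncomputable def sp (p x : ℝ) : ℝ := SignType.sign x * |x| ^ p

/-- the nonlinearity `g(x) = x - sgn(x)|x|^p`; the equation is `-Δ u = lam * g(u)` -/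
noncomputable def gg (p x : ℝ) : ℝ := x - sp p x

/-- zero-energy profile: `φ'' = L (φ^p - φ)`, `φ = 0` on `(-∞, 0]`. Used for `t < π/((1-p)√L)`. -/
noncomputable def prof (p L t : ℝ) : ℝ :=
  if t ≤ 0 then 0 else (2 / (p + 1) * Real.sin ((1 - p) * √L * t / 2) ^ 2) ^ (1 / (1 - p))

/-- its derivative -/
noncomputable def prof' (p L t : ℝ) : ℝ :=
  if t ≤ 0 then 0 else √L * prof p L t * Real.cot ((1 - p) * √L * t / 2)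

/-- parameters -/
structure Par where
  (p M m a c τ L0 L1 L2 t1 t0 t2 : ℝ)
  hp0 : 0 < p
  hp1 : p < 1
  hM : 0 < M
  hm : 0 < m
  hMm : M + m = 1
  ha : L2 < a
  hc : 0 < c
  hτ : 0 < τ
  hL0 : 0 < L0
  hL01 : L0 < L1
  hL12 : L1 < L2
  hτ2 : √L2 * τ < Real.pi / 2
  hnear : (1 - p) * L2 * m < 1
  ht1 : 1 < t1
  ht10 : t1 < t0
  ht02 : t0 < t2

namespace Par
variable (P : Par)

/-- network equations at parameter `L` -/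
def NetSol (L x y : ℝ) : Prop :=
  x - y = L * P.M * gg P.p x ∧ y - x = L * P.m * gg P.p y

/-- the pair of levels `(x, y)` kills the tube `Q` at parameter `L` -/
def Dead (L x y : ℝ) : Prop :=
  x < 1 ∧ ∃ dR dr : ℝ, 0 < dR ∧ 0 < dr ∧ dR + dr < P.τ ∧ prof P.p L dR < 1 ∧
    P.a * (x - prof P.p L dR) < L * ((prof P.p L dR) ^ P.p - prof P.p L dR) ∧
    P.c * (y - prof P.p L dr) < prof' P.p L dr

/-- the pair of levels `(x, y)` keeps the tube `Q` alive at parameter `L` -/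
def Alive (L x y : ℝ) : Prop :=
  0 < x ∧ prof' P.p L P.τ < P.c * (y - prof P.p L P.τ)

/-- the quotient on the two-node network at `L0` -/
noncomputable def psi (t : ℝ) : ℝ :=
  (P.L0 * (P.M + P.m * t ^ 2) - (1 - t) ^ 2) / (P.M + P.m * t ^ (P.p + 1)) ^ (2 / (P.p + 1))

/-- the facts about the two-node network which the proof needs (module D proves them for
explicit numbers) -/
structure Net : Prop where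
  N1 : ∀ x y, 0 ≤ x → 0 ≤ y → P.NetSol P.L1 x y →
    (x = 0 ∧ y = 0) ∨ (x = 1 ∧ y = 1) ∨ P.Dead P.L1 x y
  N2a : 0 < P.psi P.t0 ∧ ∀ t ∈ Icc P.t1 P.t2, t ≠ P.t0 → P.psi t < P.psi P.t0
  N2b : ∀ x y, 0 ≤ x → P.t1 * x ≤ y → y ≤ P.t2 * x → P.NetSol P.L0 x y →
    (x = 0 ∧ y = 0) ∨ P.Alive P.L0 x y
  N3 : ∀ x y, 0 ≤ x → 0 ≤ y → x ≠ y →
    P.L2 * (P.M * x ^ 2 + P.m * y ^ 2
      - (P.M * x ^ (P.p + 1) + P.m * y ^ (P.p + 1)) ^ (2 / (P.p + 1))) < (x - y) ^ 2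

/-! ## the ring: break points -/

noncomputable def s1 (_P : Par) (ε : ℝ) : ℝ := ε / 2
noncomputable def s2 (_P : Par) (ε : ℝ) : ℝ := ε / 2 + ε ^ 3
noncomputable def s3 (_P : Par) (ε : ℝ) : ℝ := 3 * ε / 2 + ε ^ 3
noncomputable def s4 (_P : Par) (ε : ℝ) : ℝ := 3 * ε / 2 + 2 * ε ^ 3
noncomputable def s5 (_P : Par) (ε : ℝ) : ℝ := 5 * ε / 2 + 2 * ε ^ 3
noncomputable def s6 (_P : Par) (ε : ℝ) : ℝ := 5 * ε / 2 + 3 * ε ^ 3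
noncomputable def s7 (_P : Par) (ε : ℝ) : ℝ := 7 * ε / 2 + 3 * ε ^ 3
noncomputable def s8 (_P : Par) (ε : ℝ) : ℝ := 7 * ε / 2 + 4 * ε ^ 3
noncomputable def s9 (ε : ℝ) : ℝ := P.τ + 7 * ε / 2 + 4 * ε ^ 3
noncomputable def s10 (ε : ℝ) : ℝ := P.τ + 7 * ε / 2 + 5 * ε ^ 3
noncomputable def s11 (ε : ℝ) : ℝ := P.τ + 9 * ε / 2 + 5 * ε ^ 3
noncomputable def s12 (ε : ℝ) : ℝ := P.τ + 9 * ε / 2 + 6 * ε ^ 3
noncomputable def s13 (ε : ℝ) : ℝ := P.τ + 11 * ε / 2 + 6 * ε ^ 3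
noncomputable def s14 (ε : ℝ) : ℝ := P.τ + 11 * ε / 2 + 7 * ε ^ 3
/-- the length of the ring -/
noncomputable def ell (ε : ℝ) : ℝ := P.τ + 6 * ε + 7 * ε ^ 3

/-- `h` is the weight of the ring at scale `ε` -/
structure IsRing (ε : ℝ) (h : ℝ → ℝ) : Prop where
  smooth : ContDiff ℝ ∞ h
  per : ∀ s, h (s + P.ell ε) = h s
  pos : ∀ s, 0 < h s
  hH : ∀ s ∈ Icc 0 (P.s1 ε), h s = P.M / ε ^ 2
  hJ1 : ∀ s ∈ Icc (P.s1 ε) (P.s2 ε), h s ∈ Icc 1 (P.M / ε ^ 2)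
  hN1 : ∀ s ∈ Icc (P.s2 ε) (P.s3 ε), h s = 1
  hJ2 : ∀ s ∈ Icc (P.s3 ε) (P.s4 ε), h s ∈ Icc 1 (P.m / ε ^ 2)
  hL : ∀ s ∈ Icc (P.s4 ε) (P.s5 ε), h s = P.m / ε ^ 2
  hJ3 : ∀ s ∈ Icc (P.s5 ε) (P.s6 ε), h s ∈ Icc (P.c * ε ^ 2) (P.m / ε ^ 2)
  hN2 : ∀ s ∈ Icc (P.s6 ε) (P.s7 ε), h s = P.c * ε ^ 2
  hJ4 : ∀ s ∈ Icc (P.s7 ε) (P.s8 ε), h s ∈ Icc (P.c * ε ^ 2) ε
  hQ : ∀ s ∈ Icc (P.s8 ε) (P.s9 ε), h s = ε
  hJ5 : ∀ s ∈ Icc (P.s9 ε) (P.s10 ε), h s ∈ Icc ε (1 / ε)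
  hR : ∀ s ∈ Icc (P.s10 ε) (P.s11 ε), h s = 1 / ε
  hJ6 : ∀ s ∈ Icc (P.s11 ε) (P.s12 ε), h s ∈ Icc (P.a * ε) (1 / ε)
  hN3 : ∀ s ∈ Icc (P.s12 ε) (P.s13 ε), h s = P.a * ε
  hJ7 : ∀ s ∈ Icc (P.s13 ε) (P.s14 ε), h s ∈ Icc (P.a * ε) (P.M / ε ^ 2)
  hH' : ∀ s ∈ Icc (P.s14 ε) (P.ell ε), h s = P.M / ε ^ 2

end Par

/-! ## energies on an interval `[s, t]` -/

/-- energy on `[s,t]` -/
noncomputable def En (h u : ℝ → ℝ) (s t : ℝ) : ℝ := ∫ r in s..t, h r * (deriv u r) ^ 2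
/-- mass of `u^2` on `[s,t]` -/
noncomputable def Sm (h u : ℝ → ℝ) (s t : ℝ) : ℝ := ∫ r in s..t, h r * (u r) ^ 2
/-- mass of `|u|^(p+1)` on `[s,t]` -/
noncomputable def Zm (p : ℝ) (h u : ℝ → ℝ) (s t : ℝ) : ℝ := ∫ r in s..t, h r * |u r| ^ (p + 1)

/-- Lipschitz on `[s,t]` -/
def Lip (u : ℝ → ℝ) (s t : ℝ) : Prop := ∃ K, LipschitzOnWith K u (Icc s t)

namespace Par
variable (P : Par)
/-- average over the lump `H` (its two halves) -/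
noncomputable def av (ε : ℝ) (u : ℝ → ℝ) : ℝ :=
  ((∫ s in (0:ℝ)..(P.s1 ε), u s) + ∫ s in (P.s14 ε)..(P.ell ε), u s) / ε
/-- average over the lump `L` -/
noncomputable def bv (ε : ℝ) (u : ℝ → ℝ) : ℝ := (∫ s in (P.s4 ε)..(P.s5 ε), u s) / ε
end Par

/-- classical periodic solutions of `(h u')' = - lam h g(u)`; `F = h u'` is the flux -/
structure Sol (p lam ℓ : ℝ) (h u F : ℝ → ℝ) : Prop where
  per : ∀ s, u (s + ℓ) = u s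
  perF : ∀ s, F (s + ℓ) = F s
  du : ∀ s, HasDerivAt u (F s / h s) s
  dF : ∀ s, HasDerivAt F (-(lam * (h s * gg p (u s)))) s

/-! ## module statements of part C -/

/-- C0: rings exist -/
def RingExists : Prop := ∀ P : Par, ∀ᶠ ε in 𝓝[>] (0:ℝ), ∃ h, P.IsRing ε h

/-- C1 (passive part `[s6, s14]`) -/
def PassiveStatement : Prop := ∀ P : Par, ∃ ν ∈ Ioo (0:ℝ) 1, ∃ C > 0, ∀ᶠ ε in 𝓝[>] (0:ℝ),
  ∀ h, P.IsRing ε h → ∀ u, Lip u (P.s6 ε) (P.s14 ε) →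
    (1 + ν) * P.L2 * Sm h u (P.s6 ε) (P.s14 ε)
      ≤ (1 - ν) * En h u (P.s6 ε) (P.s14 ε) + C * u (P.s14 ε) ^ 2

/-- C2a (main quadratic inequality), with the point values -/
def QFStatement : Prop := ∀ P : Par, ∀ ν ∈ Ioo (0:ℝ) 1, ∃ δ > 0, ∀ᶠ ε in 𝓝[>] (0:ℝ),
  ∀ h, P.IsRing ε h → ∀ u, Lip u 0 (P.ell ε) → u 0 = u (P.ell ε) → ∀ L ∈ Icc 0 P.L2,
    δ * En h u 0 (P.ell ε) + ((1 - ν) * (u 0 - u (P.s4 ε)) ^ 2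
        - (L + ν) * (P.M * u 0 ^ 2 + P.m * u (P.s4 ε) ^ 2)) / ε
      ≤ En h u 0 (P.ell ε) - L * Sm h u 0 (P.ell ε)

/-- C2b (main quadratic inequality), with the averages -/
def QFavStatement : Prop := ∀ P : Par, ∀ ν ∈ Ioo (0:ℝ) 1, ∃ δ > 0, ∀ᶠ ε in 𝓝[>] (0:ℝ),
  ∀ h, P.IsRing ε h → ∀ u, Lip u 0 (P.ell ε) → u 0 = u (P.ell ε) → ∀ L ∈ Icc 0 P.L2,
    δ * En h u 0 (P.ell ε) + ((1 - ν) * (P.av ε u - P.bv ε u) ^ 2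
        - (L + ν) * (P.M * P.av ε u ^ 2 + P.m * P.bv ε u ^ 2)) / ε
      ≤ En h u 0 (P.ell ε) - L * Sm h u 0 (P.ell ε)

/-- C2c (functions vanishing at `0 ∈ H`) -/
def DirStatement : Prop := ∀ P : Par, ∃ ν ∈ Ioo (0:ℝ) 1, ∀ᶠ ε in 𝓝[>] (0:ℝ),
  ∀ h, P.IsRing ε h → ∀ u, Lip u 0 (P.ell ε) → u 0 = 0 → u (P.ell ε) = 0 →
    (1 - P.p) * P.L2 * (Sm h u 0 (P.s6 ε) + Sm h u (P.s14 ε) (P.ell ε))
      + P.L2 * Sm h u (P.s6 ε) (P.s14 ε) ≤ (1 - ν) * En h u 0 (P.ell ε)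

/-- C3 (the interpolation inequality on the ring, with a perturbed mass weight `k`) -/
def T3Statement : Prop := ∀ P : Par, P.Net → ∀ᶠ ε in 𝓝[>] (0:ℝ),
  ∀ h, P.IsRing ε h → ∀ k : ℝ → ℝ, Continuous k →
    (∀ s ∈ Icc 0 (P.ell ε), k s ∈ Icc ((1 - ε ^ 2) * h s) ((1 + ε ^ 2) * h s)) →
    ∀ u, Lip u 0 (P.ell ε) → u 0 = u (P.ell ε) →
      P.L2 * (Sm k u 0 (P.ell ε) - (∫ s in (0:ℝ)..(P.ell ε), k s) ^ ((P.p - 1) / (P.p + 1))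
          * Zm P.p k u 0 (P.ell ε) ^ (2 / (P.p + 1)))
        ≤ En h u 0 (P.ell ε)

/-- C4 (network equations, approximately), for classical solutions of any sign -/
def ApproxStatement : Prop := ∀ P : Par, ∀ K > 0, ∃ C > 0, ∀ᶠ ε in 𝓝[>] (0:ℝ),
  ∀ h, P.IsRing ε h → ∀ L ∈ Icc 0 P.L2, ∀ u F, Sol P.p L (P.ell ε) h u F →
    |P.av ε u| ≤ K → |P.bv ε u| ≤ K →
      En h u 0 (P.ell ε) ≤ C / ε ∧
      (∀ s ∈ Icc 0 (P.s1 ε) ∪ Icc (P.s14 ε) (P.ell ε), |u s - u 0| ≤ C * ε) ∧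
      |P.av ε u - u 0| ≤ C * ε ∧
      (∀ s ∈ Icc (P.s4 ε) (P.s5 ε), |u s - u (P.s4 ε)| ≤ C * ε) ∧
      |P.bv ε u - u (P.s4 ε)| ≤ C * ε ∧
      (∀ s ∈ Icc (P.s1 ε) (P.s4 ε), min (u 0) (u (P.s4 ε)) - C * ε ≤ u s) ∧
      |u 0 - u (P.s4 ε) - L * P.M * gg P.p (u 0)| ≤ C * ε ^ (min (1 / 2) P.p) ∧
      |u (P.s4 ε) - u 0 - L * P.m * gg P.p (u (P.s4 ε))| ≤ C * ε ^ (min (1 / 2) P.p)

/-- supersolution property on `[s5, s14]` -/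
def Par.Super (P : Par) (ε L : ℝ) (h U : ℝ → ℝ) : Prop :=
  Lip U (P.s5 ε) (P.s14 ε) ∧
  ∀ Z, Lip Z (P.s5 ε) (P.s14 ε) → (∀ s, 0 ≤ Z s) → Z (P.s5 ε) = 0 → Z (P.s14 ε) = 0 →
    L * ∫ s in (P.s5 ε)..(P.s14 ε), h s * (gg P.p (U s) * Z s)
      ≤ ∫ s in (P.s5 ε)..(P.s14 ε), h s * (deriv U s * deriv Z s)

/-- C5a (comparison on the passive part) -/
def CompareStatement : Prop := ∀ P : Par, ∀ᶠ ε in 𝓝[>] (0:ℝ), ∀ h, P.IsRing ε h →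
  ∀ L ∈ Icc 0 P.L2, ∀ u F, Sol P.p L (P.ell ε) h u F → ∀ U, P.Super ε L h U →
    u (P.s5 ε) ≤ U (P.s5 ε) → u (P.s14 ε) ≤ U (P.s14 ε) →
    ∀ s ∈ Icc (P.s5 ε) (P.s14 ε), u s ≤ U s

/-- C5c (dead barrier) -/
def DeadBarrier : Prop := ∀ P : Par, ∀ x y, P.Dead P.L1 x y → 0 ≤ x → 0 ≤ y → ∃ ρ > 0,
  ∀ᶠ ε in 𝓝[>] (0:ℝ), ∀ h, P.IsRing ε h → ∃ U, P.Super ε P.L1 h U ∧
    x + ρ ≤ U (P.s14 ε) ∧ y + ρ ≤ U (P.s5 ε) ∧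
    ∃ α β, P.s8 ε < α ∧ α < β ∧ β < P.s9 ε ∧ ∀ s ∈ Icc α β, U s = 0

/-- C5d (alive barrier): `-U` is a supersolution, i.e. `U` is a subsolution -/
def AliveBarrier : Prop := ∀ P : Par, ∀ x y, P.Alive P.L0 x y → ∃ ρ > 0,
  ∀ᶠ ε in 𝓝[>] (0:ℝ), ∀ h, P.IsRing ε h → ∃ U : ℝ → ℝ, P.Super ε P.L0 h (fun s => - U s) ∧
    U (P.s14 ε) ≤ x - ρ ∧ U (P.s5 ε) ≤ y - ρ ∧ ∀ s ∈ Icc (P.s5 ε) (P.s14 ε), 0 < U s

/-- C6 (classification of the nonnegative solutions at `L1`) -/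
def T2Statement : Prop := ∀ P : Par, P.Net → ∀ᶠ ε in 𝓝[>] (0:ℝ),
  ∀ h, P.IsRing ε h → ∀ u F, Sol P.p P.L1 (P.ell ε) h u F → (∀ s, 0 ≤ u s) →
    (∀ s, u s = 0) ∨ (∀ s, u s = 1) ∨
    ∃ α β, P.s8 ε < α ∧ α < β ∧ β < P.s9 ε ∧ ∀ s ∈ Icc α β, u s = 0

/-- C8 (positivity of the solutions at `L0` in the window) -/
def T1bStatement : Prop := ∀ P : Par, P.Net → ∀ K > 0, ∀ᶠ ε in 𝓝[>] (0:ℝ),
  ∀ h, P.IsRing ε h → ∀ u F, Sol P.p P.L0 (P.ell ε) h u F →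
    0 ≤ P.av ε u → P.t1 * P.av ε u ≤ P.bv ε u → P.bv ε u ≤ P.t2 * P.av ε u →
    (∃ s, u s ≠ 0) → Zm P.p h u 0 (P.ell ε) ≤ K / ε → ∀ s, 0 < u s

/-- the quadratic upper bound of `L0 S - E` in terms of the averages (a form of `QFav`) -/
noncomputable def Par.Qf (P : Par) (ν ε a b : ℝ) : ℝ :=
  ((P.L0 + ν) * (P.M * a ^ 2 + P.m * b ^ 2) - (1 - ν) * (a - b) ^ 2) / ε

/-- C7 (the window) -/
def T1aStatement : Prop := ∀ P : Par, P.Net → ∃ ν ∈ Ioo (0:ℝ) 1, ∃ K > 0, ∀ᶠ ε in 𝓝[>] (0:ℝ),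
  ∀ h, P.IsRing ε h → ∃ σ > 0, ∃ θ > 0,
    (2 * P.L0 / σ) ^ ((P.p + 1) / (1 - P.p)) ≤ K / ε ∧
    (∃ u, ContDiff ℝ 1 u ∧ (∀ s, u (s + P.ell ε) = u s) ∧ Zm P.p h u 0 (P.ell ε) < 1 ∧
      0 < P.av ε u ∧ P.t1 * P.av ε u < P.bv ε u ∧ P.bv ε u < P.t2 * P.av ε u ∧
      σ < P.L0 * Sm h u 0 (P.ell ε) - En h u 0 (P.ell ε)) ∧
    (∀ a b, 0 ≤ a → P.t1 * a ≤ b → b ≤ P.t2 * a →
      P.M / ε * |a| ^ (P.p + 1) + P.m / ε * |b| ^ (P.p + 1) ≤ 1 + θ →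
      σ - θ ≤ P.Qf ν ε a b → θ ≤ a ∧ P.t1 * a + θ ≤ b ∧ b ≤ P.t2 * a - θ)

/-- D (numbers): there are admissible network data -/
def NetExists : Prop := ∃ P : Par, P.p = 1 / 8 ∧ P.Net

end Pool.Agent.Lib.MP_e46711_an
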